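import Pool.Agent.Helper66_D2.Tool
import Pool.Agent.Helper51_D1.Cbd

/-!
# Squad PP, part D2, module CBD: the count over `b`
-/

open scoped BigOperators

set_option linter.unusedSectionVars false

noncomputable section

namespace Pool.Agent.PP.CD2.H91

open Pool.Agent.Helper51_AWC Pool.Agent.Helper79_WRA Pool.Agent.PP Pool.Agent.PP.CD2

section

variable {ℓ n : ℕ} {F : Type} [Field F] {G : Type} [Group G] {N P : Subgroup G} {y₁ : G}
  {b w : G → F}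

theorem bY_cl (y₁ : G) {b : G → F} (hb : IsCl b) : IsCl (fun t : NY y₁ => bY y₁ b t) :=
  D1H51.br_cl (Subgroup.zpowers y₁) hb

variable [Fact ℓ.Prime] [Finite G]

/-- corresponding characters lie over `b` and over `br_P b` simultaneously -/
theorem cor_act (hebd : EbdStmt) (hrsd : RsdStmt) (heig : EigStmt) (hF : GoodF ℓ F)
    (hS : D2S ℓ n N P y₁ b w) {φ : N → F} {θ : N.subgroupOf (NY y₁) → F}
    (hc : CorW N y₁ (bY y₁ b) w (ℓ ^ (n + 1) - 1) φ θ) :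
    actF (fun t : N => b t) φ = φ ↔
      actF (fun t : N.subgroupOf (NY y₁) => bY y₁ b ((t : NY y₁) : G)) θ = θ := by
  obtain ⟨hSN, hrange, hbY⟩ := hrsd ℓ F G n N P ⟨y₁, hS.le hS.mem⟩ b w hS
  obtain ⟨k, σ, m, κ, π, hσ, rfl, hκ, rfl, hHW⟩ := hc
  have hcl : IsCl (fun t : N => b t) := D1H51.restr_cl hS.idem.1
  obtain ⟨c, h1, -, -⟩ := heig F N k σ hσ _ hcl
  have hHW' : HW (jN N (NY y₁)) κ (mrep σ) π
      (fixW (mrep σ) (bY (⟨y₁, hS.le hS.mem⟩ : N) (fun t : N => b t)) (fun t : N => w t))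
      (rngW (mrep σ) (fun t : N => w t) (ℓ ^ (n + 1) - 1)) := by
    rw [hbY]
    exact hHW
  have h2 := hebd ℓ F hF N n ⊤ (P.subgroupOf N) ⟨y₁, hS.le hS.mem⟩ (fun t : N => b t)
    (fun t : N => w t) hSN (N.subgroupOf (NY y₁)) (jN N (NY y₁)) (D1H51.jN_injective _ _) hrange
    k σ m κ π hκ hHW' (fun t : N => b t) c hcl h1
  rw [hbY] at h2
  have hcl' : IsCl (fun t : N.subgroupOf (NY y₁) => bY y₁ b ((t : NY y₁) : G)) :=
    D1H51.restr_cl' (bY_cl y₁ hS.idem.1) _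
  have h2' : ev κ (fun t : N.subgroupOf (NY y₁) => bY y₁ b ((t : NY y₁) : G)) =
      Matrix.scalar (Fin m) c := h2
  rw [D1H51.act_one_iff heig hσ hcl, D1H51.act_one_iff heig hκ hcl', h1, h2']
  have hn : NeZero k := ⟨hσ.1.ne'⟩
  have hm : NeZero m := ⟨hκ.1.ne'⟩
  constructor
  · intro h
    have h4 : Matrix.scalar (Fin k) c = Matrix.scalar (Fin k) (1 : F) := by rw [h, map_one]
    rw [Matrix.scalar_inj.1 h4, map_one]
  · intro h
    have h4 : Matrix.scalar (Fin m) c = Matrix.scalar (Fin m) (1 : F) := by rw [h, map_one]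
    rw [Matrix.scalar_inj.1 h4, map_one]

/-- a character over `b` has a partner -/
theorem cor_ex (hird : IrdStmt) (hrsd : RsdStmt) (heig : EigStmt) (hF : GoodF ℓ F)
    (hS : D2S ℓ n N P y₁ b w) {φ : N → F} (hφ : φ ∈ IBr F N)
    (ha : actF (fun t : N => b t) φ = φ) :
    ∃ θ, CorW N y₁ (bY y₁ b) w (ℓ ^ (n + 1) - 1) φ θ := by
  obtain ⟨hSN, hrange, hbY⟩ := hrsd ℓ F G n N P ⟨y₁, hS.le hS.mem⟩ b w hS
  obtain ⟨k, σ, hσ, rfl⟩ := hφ
  have h1 := (D1H51.act_one_iff heig hσ (D1H51.restr_cl hS.idem.1)).1 ha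
  obtain ⟨m, κ, π, hκ, hHW⟩ := hird ℓ F hF N n ⊤ (P.subgroupOf N) ⟨y₁, hS.le hS.mem⟩
    (fun t : N => b t) (fun t : N => w t) hSN (N.subgroupOf (NY y₁)) (jN N (NY y₁))
    hrange k σ hσ h1
  rw [hbY] at hHW
  exact ⟨tr κ, k, σ, m, κ, π, hσ, rfl, hκ, rfl, hHW⟩

theorem cor_ex' (hsud : SudStmt) (hrsd : RsdStmt) (heig : EigStmt) (hF : GoodF ℓ F)
    (hS : D2S ℓ n N P y₁ b w) {θ : N.subgroupOf (NY y₁) → F}
    (hθ : θ ∈ IBr F (N.subgroupOf (NY y₁)))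
    (ha : actF (fun t : N.subgroupOf (NY y₁) => bY y₁ b ((t : NY y₁) : G)) θ = θ) :
    ∃ φ, CorW N y₁ (bY y₁ b) w (ℓ ^ (n + 1) - 1) φ θ := by
  obtain ⟨hSN, hrange, hbY⟩ := hrsd ℓ F G n N P ⟨y₁, hS.le hS.mem⟩ b w hS
  obtain ⟨m, κ, hκ, rfl⟩ := hθ
  have hcl' : IsCl (fun t : N.subgroupOf (NY y₁) => bY y₁ b ((t : NY y₁) : G)) :=
    D1H51.restr_cl' (bY_cl y₁ hS.idem.1) _
  have h1 := (D1H51.act_one_iff heig hκ hcl').1 ha
  obtain ⟨k, σ, π, hσ, -, hHW⟩ := hsud ℓ F hF N n (P.subgroupOf N) ⟨y₁, hS.le hS.mem⟩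
    (fun t : N => b t) (fun t : N => w t) hSN (N.subgroupOf (NY y₁)) (jN N (NY y₁))
    (D1H51.jN_injective _ _) hrange m κ hκ (by rw [hbY]; exact h1)
  rw [hbY] at hHW
  exact ⟨tr σ, k, σ, m, κ, π, hσ, rfl, hκ, rfl, hHW⟩

theorem cor_right (hund : UndStmt) (hrsd : RsdStmt) (hF : GoodF ℓ F)
    (hS : D2S ℓ n N P y₁ b w) {φ : N → F} {θ θ' : N.subgroupOf (NY y₁) → F}
    (h : CorW N y₁ (bY y₁ b) w (ℓ ^ (n + 1) - 1) φ θ)
    (h' : CorW N y₁ (bY y₁ b) w (ℓ ^ (n + 1) - 1) φ θ') : θ = θ' := by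
  obtain ⟨hSN, hrange, hbY⟩ := hrsd ℓ F G n N P ⟨y₁, hS.le hS.mem⟩ b w hS
  obtain ⟨k, σ, m, κ, π, hσ, hφ, hκ, rfl, hHW⟩ := h
  obtain ⟨k', σ', m', κ', π', hσ', hφ', hκ', rfl, hHW'⟩ := h'
  exact hund ℓ F hF N n ⊤ (P.subgroupOf N) ⟨y₁, hS.le hS.mem⟩ (fun t : N => b t)
    (fun t : N => w t) hSN (N.subgroupOf (NY y₁)) (jN N (NY y₁)) hrange
    k k' σ σ' hσ hσ' (hφ.trans hφ'.symm) m m' κ κ' π π' hκ hκ' (by rw [hbY]; exact hHW)
    (by rw [hbY]; exact hHW')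

theorem cor_left (hind : IndStmt) (hrsd : RsdStmt) (heig : EigStmt) (hF : GoodF ℓ F)
    (hS : D2S ℓ n N P y₁ b w) {φ φ' : N → F} {θ : N.subgroupOf (NY y₁) → F}
    (ha : actF (fun t : N => b t) φ = φ) (ha' : actF (fun t : N => b t) φ' = φ')
    (h : CorW N y₁ (bY y₁ b) w (ℓ ^ (n + 1) - 1) φ θ)
    (h' : CorW N y₁ (bY y₁ b) w (ℓ ^ (n + 1) - 1) φ' θ) : φ = φ' := by
  obtain ⟨hSN, hrange, hbY⟩ := hrsd ℓ F G n N P ⟨y₁, hS.le hS.mem⟩ b w hS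
  obtain ⟨k, σ, m, κ, π, hσ, rfl, hκ, hθ, hHW⟩ := h
  obtain ⟨k', σ', m', κ', π', hσ', rfl, hκ', hθ', hHW'⟩ := h'
  have hcl : IsCl (fun t : N => b t) := D1H51.restr_cl hS.idem.1
  exact hind ℓ F hF N n ⊤ (P.subgroupOf N) ⟨y₁, hS.le hS.mem⟩ (fun t : N => b t)
    (fun t : N => w t) hSN (N.subgroupOf (NY y₁)) (jN N (NY y₁)) hrange k k' σ σ' hσ hσ'
    ((D1H51.act_one_iff heig hσ hcl).1 ha) ((D1H51.act_one_iff heig hσ' hcl).1 ha')
    m m' κ κ' π π' hκ hκ' (hθ.trans hθ'.symm) (by rw [hbY]; exact hHW) (by rw [hbY]; exact hHW')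

/-- corresponding characters lie in the sets of the counting lemma simultaneously -/
theorem mem_iff [N.Normal] (hind : IndStmt) (hund : UndStmt) (hebd : EbdStmt) (hrsd : RsdStmt)
    (hc3d : C3dStmt) (heig : EigStmt) (hF : GoodF ℓ F) (hS : D2S ℓ n N P y₁ b w) {φ : N → F}
    {θ : N.subgroupOf (NY y₁) → F} (hc : CorW N y₁ (bY y₁ b) w (ℓ ^ (n + 1) - 1) φ θ)
    (x y : NY y₁) :
    φ ∈ phiSet N b (x : G) (y : G) ↔
      θ ∈ phiSet (N.subgroupOf (NY y₁)) (fun t : NY y₁ => bY y₁ b t) x y := by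
  have hact := cor_act hebd hrsd heig hF hS hc
  have hx : ∀ x : NY y₁,
      actF (fun t : N => b t) φ = φ → ((∀ l, φ (MulAut.conjNormal (x : G) l) = φ l) ↔
        ∀ l, θ (MulAut.conjNormal x l) = θ l) := by
    intro x ha
    have h6 := hc3d ℓ F hF G n N P y₁ b w hS φ θ hc x
    constructor
    · intro h l
      have h7 : (fun l => φ (MulAut.conjNormal (x : G) l)) = φ := funext h
      rw [h7] at h6
      exact congrFun (cor_right hund hrsd hF hS h6 hc) l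
    · intro h l
      have h7 : (fun l => θ (MulAut.conjNormal x l)) = θ := funext h
      rw [h7] at h6
      have h8 := (cor_act hebd hrsd heig hF hS h6).2 (hact.1 ha)
      exact congrFun (cor_left hind hrsd heig hF hS h8 ha h6 hc) l
  have hmem : φ ∈ IBr F N ∧ θ ∈ IBr F (N.subgroupOf (NY y₁)) := by
    obtain ⟨k, σ, m, κ, π, hσ, hφ, hκ, hθ, -⟩ := hc
    exact ⟨⟨k, σ, hσ, hφ.symm⟩, m, κ, hκ, hθ.symm⟩
  unfold phiSet
  constructor
  · rintro ⟨-, a2, a3, a4⟩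
    exact ⟨hmem.2, hact.1 a2, (hx x a2).1 a3, (hx y a2).1 a4⟩
  · rintro ⟨-, a2, a3, a4⟩
    have a2' := hact.2 a2
    exact ⟨hmem.1, a2', (hx x a2').2 a3, (hx y a2').2 a4⟩

end

/-- CBD: the numbers of irreducible modular characters over `b` and over `br_P b` agree -/
theorem cbd (hcmq : CmqStmt) (hird : IrdStmt) (hind : IndStmt) (hund : UndStmt) (hebd : EbdStmt)
    (hsud : SudStmt) (hrsd : RsdStmt) (hc3d : C3dStmt) (hc4d : C4dStmt) (heig : EigStmt) :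
    CbdStmt := by
  intro ℓ _ F _ hF G _ _ n N P y₁ b w hS
  have hNn := hS.normal
  refine hcmq ℓ F hF G N (NY y₁) hS.frat b (fun t : NY y₁ => bY y₁ b t) hS.idem.1 hS.supp
    (bY_cl y₁ hS.idem.1) ?_ ?_
  · intro x hx
    have h1 : b x = 0 := hS.supp x hx
    show br (Subgroup.zpowers y₁) b x = 0
    unfold br
    split_ifs
    · exact h1
    · rfl
  intro τ hτ x y hk
  unfold csum
  classical
  let g : (N → F) → (N.subgroupOf (NY y₁) → F) := fun φ =>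
    if h : ∃ θ, CorW N y₁ (bY y₁ b) w (ℓ ^ (n + 1) - 1) φ θ then h.choose else 0
  have hg : ∀ φ ∈ phiSet N b (x : G) (y : G),
      CorW N y₁ (bY y₁ b) w (ℓ ^ (n + 1) - 1) φ (g φ) := by
    intro φ hφ
    have hex : ∃ θ, CorW N y₁ (bY y₁ b) w (ℓ ^ (n + 1) - 1) φ θ :=
      cor_ex hird hrsd heig hF hS hφ.1 hφ.2.1
    have h1 : g φ = hex.choose := dif_pos hex
    rw [h1]
    exact hex.choose_spec
  refine finsum_mem_eq_of_bijOn g ⟨?_, ?_, ?_⟩ ?_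
  · intro φ hφ
    exact (mem_iff hind hund hebd hrsd hc3d heig hF hS (hg φ hφ) x y).1 hφ
  · intro φ hφ φ' hφ' heq
    have h1 := hg φ hφ
    rw [heq] at h1
    exact cor_left hind hrsd heig hF hS hφ.2.1 hφ'.2.1 h1 (hg φ' hφ')
  · intro θ hθ
    obtain ⟨φ, hc⟩ := cor_ex' hsud hrsd heig hF hS hθ.1 hθ.2.1
    have hφ := (mem_iff hind hund hebd hrsd hc3d heig hF hS hc x y).2 hθ
    exact ⟨φ, hφ, cor_right hund hrsd hF hS (hg φ hφ) hc⟩
  · intro φ hφ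
    have hc := hg φ hφ
    have hθ := (mem_iff hind hund hebd hrsd hc3d heig hF hS hc x y).1 hφ
    rw [hc4d ℓ F hF G n N P y₁ b w hS φ (g φ) hc x y hk hφ.2.2.1 hφ.2.2.2 hθ.2.2.1 hθ.2.2.2]

end Pool.Agent.PP.CD2.H91
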