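import Pool.Agent.Helper66_D2.Tool
import Pool.Agent.Helper51_D1.Cld

/-!
# Squad PP, part D2, module CLA: the defect group of a block of cyclic defect
-/

open scoped BigOperators

set_option linter.unusedSectionVars false

noncomputable section

namespace Pool.Agent.PP.CD2.H91

open Pool.Agent.Helper51_AWC Pool.Agent.Helper79_WRA Pool.Agent.PP Pool.Agent.PP.CD2
  Pool.Agent.PP.D1H51

/-! ### Cyclic `ℓ`-groups -/

section cyc

variable {ℓ : ℕ} [Fact ℓ.Prime] {G : Type} [Group G] [Finite G]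

/-- the element of order `ℓ` of a cyclic group of order `ℓ ^ (n + 1)`; the elements normalising the
group normalise the subgroup which it generates -/
theorem cyc_gen {P : Subgroup G} (hcyc : IsCyclic P) {n : ℕ} (hcard : Nat.card P = ℓ ^ (n + 1)) :
    ∃ y₁ : G, y₁ ∈ P ∧ orderOf y₁ = ℓ ∧ P ≤ CY y₁ ∧
      ∀ g ∈ Subgroup.normalizer (P : Set G), g ∈ NY y₁ := by
  have hℓ : ℓ.Prime := Fact.out
  obtain ⟨y, hy⟩ := hcyc.exists_generator
  have hord : orderOf y = ℓ ^ (n + 1) := by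
    rw [← hcard]
    exact orderOf_eq_card_of_forall_mem_zpowers hy
  have hordG : orderOf (y : G) = ℓ ^ (n + 1) := by
    rw [← hord]
    exact Subgroup.orderOf_coe y
  have hmemP : ∀ z ∈ P, z ∈ Subgroup.zpowers (y : G) := by
    intro z hz
    obtain ⟨k, hk⟩ := Subgroup.mem_zpowers_iff.1 (hy ⟨z, hz⟩)
    refine Subgroup.mem_zpowers_iff.2 ⟨k, ?_⟩
    have h1 := congrArg (fun t : P => (t : G)) hk
    have h2 : ((y ^ k : P) : G) = (y : G) ^ k := by push_cast; rfl
    exact h2.symm.trans h1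
  have hpow : orderOf ((y : G) ^ ℓ ^ n) = ℓ := by
    rw [orderOf_pow_of_dvd (pow_ne_zero _ hℓ.ne_zero) (by
      rw [hordG]
      exact pow_dvd_pow _ (Nat.le_succ n)), hordG, pow_succ]
    exact Nat.mul_div_cancel_left _ (pow_pos hℓ.pos n)
  refine ⟨(y : G) ^ ℓ ^ n, P.pow_mem y.2 _, hpow, ?_, ?_⟩
  · intro z hz
    obtain ⟨k, rfl⟩ := Subgroup.mem_zpowers_iff.1 (hmemP z hz)
    refine Subgroup.mem_centralizer_iff.2 fun t ht => ?_
    obtain ⟨j, rfl⟩ := Subgroup.mem_zpowers_iff.1 ht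
    have h1 : Commute ((y : G) ^ ℓ ^ n) (y : G) := (Commute.refl (y : G)).pow_left _
    exact (h1.zpow_zpow j k).eq
  · -- the subgroup of order `ℓ` consists of the elements killed by `ℓ`
    have key : ∀ z ∈ P, z ^ ℓ = 1 → z ∈ Subgroup.zpowers ((y : G) ^ ℓ ^ n) := by
      intro z hz hzl
      obtain ⟨k, rfl⟩ := Subgroup.mem_zpowers_iff.1 (hmemP z hz)
      have h1 : (y : G) ^ (k * (ℓ : ℤ)) = 1 := by
        rw [zpow_mul, zpow_natCast]
        exact hzl
      have h2 : ((orderOf (y : G) : ℕ) : ℤ) ∣ k * (ℓ : ℤ) := orderOf_dvd_iff_zpow_eq_one.2 h1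
      rw [hordG] at h2
      have h3 : ((ℓ ^ n : ℕ) : ℤ) ∣ k := by
        have hℓz : (ℓ : ℤ) ≠ 0 := by exact_mod_cast hℓ.ne_zero
        rw [pow_succ] at h2
        push_cast at h2 ⊢
        exact Int.dvd_of_mul_dvd_mul_right hℓz h2
      obtain ⟨j, rfl⟩ := h3
      refine Subgroup.mem_zpowers_iff.2 ⟨j, ?_⟩
      rw [zpow_mul, zpow_natCast]
    have hmem : ∀ t ∈ Subgroup.zpowers ((y : G) ^ ℓ ^ n), t ∈ P ∧ t ^ ℓ = 1 := by
      intro t ht
      obtain ⟨j, rfl⟩ := Subgroup.mem_zpowers_iff.1 ht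
      refine ⟨P.zpow_mem (P.pow_mem y.2 _) j, ?_⟩
      have h1 : ((y : G) ^ ℓ ^ n) ^ ℓ = 1 := by
        have h0 := pow_orderOf_eq_one ((y : G) ^ ℓ ^ n)
        rwa [hpow] at h0
      calc (((y : G) ^ ℓ ^ n) ^ j) ^ ℓ = ((y : G) ^ ℓ ^ n) ^ (j * (ℓ : ℤ)) := by
            rw [zpow_mul, zpow_natCast]
        _ = ((y : G) ^ ℓ ^ n) ^ ((ℓ : ℤ) * j) := by rw [mul_comm]
        _ = (((y : G) ^ ℓ ^ n) ^ ℓ) ^ j := by rw [zpow_mul, zpow_natCast]
        _ = 1 := by rw [h1, one_zpow]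
    intro g hg
    have hg1 := Subgroup.mem_normalizer_iff.1 hg
    refine Subgroup.mem_normalizer_iff.2 fun t => ?_
    constructor
    · intro ht
      obtain ⟨h1, h2⟩ := hmem t ht
      refine key _ ((hg1 t).1 h1) ?_
      rw [conj_pow, h2, mul_one, mul_inv_cancel]
    · intro ht
      obtain ⟨h1, h2⟩ := hmem _ ht
      refine key _ ((hg1 t).2 h1) ?_
      rw [conj_pow] at h2
      have h3 : g * t ^ ℓ = g := by
        have h4 := congrArg (fun s => s * g) h2
        simpa using h4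
      exact mul_left_cancel (h3.trans (mul_one g).symm)

end cyc

/-- CLA: existence of the defect group of a stable block of cyclic defect -/
theorem cla (hbrq : BrqStmt) (hinv : InvStmt) : ClaStmt := by
  intro ℓ _ F _ hF G _ _ N hN b hbcl hbN hblk hdz hcyc
  classical
  have hchar := hF.char
  have hℓ : ℓ.Prime := Fact.out
  obtain ⟨k₀, ρ, hρ, hρb⟩ := H20.blk_rep hF hblk.1 hblk.2.1
  obtain ⟨x, hbx, w, hw, hwx⟩ := exists_class hρ hblk.1.1 hρb
  obtain ⟨u, hu, hub⟩ := hinv ℓ F hF N (fun t : N => b t) (clsum F ⊤ x) hblk (clsum_cl x)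
    (not_nil hρ hw hwx hρb)
  have hzub : mulF (clsum F ⊤ x) (mulF u (fun t : N => b t)) = fun t : N => b t := by
    rw [← mulF_assoc, ← H20.mulF_comm_of_cl hblk.1.1, hub]
  have hucl : IsCl (mulF u (fun t : N => b t)) := H20.isCl_mulF hu hblk.1.1
  set V : G → F := ext0 N (mulF u (fun t : N => b t)) with hV
  have hKV : mulF (clsum F N (x : G)) V = b := by
    rw [← ext0_clsum', hV, ← H46.ext0_mul, hzub, H46.ext0_restr hbN]
  have hVN : ∀ y, y ∉ N → V y = 0 := fun y hy => H46.ext0_of_not_mem _ hy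
  have hVi : ∀ m ∈ N, ∀ y, V (m * y * m⁻¹) = V y := fun m hm y => ext0_inv hucl hm y
  have hKi : ∀ m ∈ N, ∀ y, clsum F N (x : G) (m * y * m⁻¹) = clsum F N (x : G) y := by
    intro m hm y
    rw [← ext0_clsum']
    exact ext0_inv (clsum_cl x) hm y
  set C : Subgroup G := Subgroup.centralizer ({(x : G)} : Set G) ⊓ N with hC
  obtain ⟨P, hPC, hPp, hPidx, hPsyl⟩ := syl_exists (ℓ := ℓ) C
  have hPN : P ≤ N := hPC.trans inf_le_right
  have hxP : (x : G) ∈ Subgroup.centralizer (P : Set G) := by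
    rw [Subgroup.mem_centralizer_iff]
    intro p hp
    exact Subgroup.mem_centralizer_singleton_iff.1 (hPC hp).1
  have hbrP : br P b ≠ 0 := by
    intro h
    apply hbx
    have h1 := congrFun h (x : G)
    rw [H66.br_of_mem hxP] at h1
    exact h1
  have hPcyc : IsCyclic P := hcyc P hPN hPp hbrP
  obtain ⟨n, hcard⟩ : ∃ n, Nat.card P = ℓ ^ (n + 1) := by
    obtain ⟨k, hk⟩ := IsPGroup.iff_card.1 hPp
    rcases k with _ | k
    · exfalso
      apply hdz
      rw [pow_zero] at hk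
      have hPbot : P = ⊥ := Subgroup.card_eq_one.1 hk
      rw [hPbot, Subgroup.relIndex_bot_left] at hPidx
      rw [hC, ← card_cent] at hPidx
      have h1 := (H20.pci ℓ F hF N _ _ (prC_clsum (F := F) hPidx) hucl).2
      rw [hzub] at h1
      exact dz_of_prC h1
    · exact ⟨k, hk⟩
  obtain ⟨y₁, hy₁P, hy₁o, hPCY, hnorm⟩ := cyc_gen (ℓ := ℓ) hPcyc hcard
  -- the Brauer maps
  have hbrk : ∀ Q : Subgroup G, Q ≤ N → IsPGroup ℓ Q → br Q b ≠ 0 →
      ∃ m ∈ N, Q ≤ conjS m P := by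
    intro Q hQN hQ hbr
    have h1 : br Q b = mulF (br Q (clsum F N (x : G))) (br Q V) := by
      rw [← hKV]
      exact H66.br_mulF hF hQ (fun q hq t => hKi q (hQN hq) t) (fun q hq t => hVi q (hQN hq) t)
    have h2 : br Q (clsum F N (x : G)) ≠ 0 := by
      intro h
      apply hbr
      rw [h1, h]
      funext y
      unfold mulF
      simp
    obtain ⟨y, hy⟩ := Function.ne_iff.1 h2
    have hyQ : y ∈ Subgroup.centralizer (Q : Set G) := by
      by_contra h
      exact hy (H66.br_of_not_mem h)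
    rw [H66.br_of_mem hyQ] at hy
    have hex : ∃ q ∈ N, y = q * (x : G) * q⁻¹ := by
      by_contra h
      apply hy
      unfold clsum
      rw [if_neg h]
      rfl
    obtain ⟨m, hm, rfl⟩ := hex
    have h3 : Q ≤ conjS m C := by
      rw [hC, ← centralizer_conj (x : G) m hm]
      intro q hq
      refine ⟨Subgroup.mem_centralizer_singleton_iff.2 ?_, hQN hq⟩
      exact Subgroup.mem_centralizer_iff.1 hyQ q hq
    rw [le_conjS_iff] at h3
    obtain ⟨c, hc, h4⟩ := hPsyl _ h3 (conjS_pgroup hQ)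
    refine ⟨m * c, N.mul_mem hm hc.2, ?_⟩
    rw [← conjS_mul, le_conjS_iff]
    exact h4
  -- Frattini
  have hfrat : N ⊔ NY y₁ = ⊤ := by
    rw [eq_top_iff]
    intro g _
    have h1 : conjS g P ≤ N := by
      intro y hy
      rw [mem_conjS] at hy
      have h2 := hN.conj_mem _ (hPN hy) g
      have h3 : g * (g⁻¹ * y * g) * g⁻¹ = y := by group
      rwa [h3] at h2
    have h2 : br (conjS g P) b ≠ 0 := by
      intro h
      apply hbx
      have h3 : g * (x : G) * g⁻¹ ∈ Subgroup.centralizer (conjS g P : Set G) := by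
        rw [Subgroup.mem_centralizer_iff]
        intro y hy
        have hy' : g⁻¹ * y * g ∈ P := mem_conjS.1 hy
        have h4 := Subgroup.mem_centralizer_iff.1 hxP _ hy'
        calc y * (g * (x : G) * g⁻¹) = g * (g⁻¹ * y * g * x) * g⁻¹ := by group
          _ = g * (x * (g⁻¹ * y * g)) * g⁻¹ := by rw [h4]
          _ = g * x * g⁻¹ * y := by group
      have h5 := congrFun h (g * (x : G) * g⁻¹)
      rw [H66.br_of_mem h3, hbcl] at h5
      exact h5
    obtain ⟨m, hm, h3⟩ := hbrk _ h1 (conjS_pgroup hPp) h2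
    have h3' : conjS g P = conjS m P :=
      Subgroup.eq_of_le_of_card_ge h3 (by rw [card_conjS, card_conjS])
    have h4 : m⁻¹ * g ∈ Subgroup.normalizer (P : Set G) := by
      rw [mem_normalizer_iff_conjS, ← conjS_mul, h3', conjS_mul, inv_mul_cancel, D1H51.conjS_one]
    have h5 : g = m * (m⁻¹ * g) := (mul_inv_cancel_left m g).symm
    rw [h5]
    exact mul_mem (Subgroup.mem_sup_left hm) (Subgroup.mem_sup_right (hnorm _ h4))
  -- the idempotent
  have hidem : IsIdem b := by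
    refine ⟨hbcl, ?_⟩
    have h1 := hblk.1.2
    rw [← H46.ext0_restr hbN, ← H46.ext0_mul, h1]
  have hidx0 : ∀ m : ℕ, ¬ ℓ ∣ m → (m : F) ≠ 0 := by
    intro m hm h
    exact hm ((CharP.cast_eq_zero_iff F ℓ m).1 h)
  have hprj : PrjB N P b := by
    have h1 := prj_of (F := F) x.2 (P := P) (by rw [← hC]; exact hPC)
      (by rw [← hC]; exact hidx0 _ hPidx) hVN hVi
    rw [hKV] at h1
    exact h1
  -- the normaliser
  have hPNY : P ≤ N ⊓ NY y₁ := le_inf hPN (hPCY.trans (CD2.H66.CY_le_NY y₁))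
  have hprj1 : PrjB (N ⊓ NY y₁) P (bY y₁ b) := by
    obtain ⟨c, z, hc, hzN, hzP, hbz⟩ := hprj
    obtain ⟨c₁, hc₁⟩ := exists_w F hPNY
    have h1 := hbrq ℓ F hF G n N P y₁ hPN hPcyc hcard hy₁P hy₁o c c₁ z hc hc₁ hzP
    have h2 : b = fun x => ∑ᶠ g : G, c g * z (g⁻¹ * x * g) := funext hbz
    refine ⟨c₁, bY y₁ z, hc₁, ?_, ?_, ?_⟩
    · intro t ht
      exact CD2.H66.bY_sp (N := N) hzN t fun h => ht ⟨h.1, CD2.H66.CY_le_NY y₁ h.2⟩
    · intro p hp t
      exact CD2.H66.bY_cm (H := P) hzP p ⟨hp, (hPNY hp).2⟩ t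
    · intro t
      conv_lhs => rw [h2]
      rw [h1]
  refine ⟨n, P, y₁, ⟨hN, hPcyc, hcard, hPN, hy₁P, hy₁o, hidem, hbN, hblk, hfrat, hprj, hprj1,
    ?_, hbrP, ?_⟩⟩
  · intro k τ hτ hτb ψ
    exact npj_of hinv hF hblk hdz k τ hτ hτb ψ
  · intro Q hQN hQ hbr
    obtain ⟨m, -, h⟩ := hbrk Q hQN hQ hbr
    exact ⟨m, h⟩

end Pool.Agent.PP.CD2.H91
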